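import Pool.Agent.W763.PB.Stm

/-! Project PB (helper763), part G3 (helper347): range III. -/

set_option autoImplicit false
open MeasureTheory Filter Topology
open scoped InnerProductSpace BoundedContinuousFunction

namespace Pool.Agent.W347.PB

open Pool.Agent.W763.PB

section abs
variable {H H' : Type} [NormedAddCommGroup H] [InnerProductSpace ℂ H]
    [CompleteSpace H] [NormedAddCommGroup H'] [InnerProductSpace ℂ H'] [CompleteSpace H']

theorem adj_comm {J : H →L[ℂ] H'} {D : H →L[ℂ] H} {D' : H' →L[ℂ] H'}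
    (hsa : ∀ x y, ⟪D' x, y⟫_ℂ = ⟪x, D' y⟫_ℂ) (hsaD : ∀ x y, ⟪D x, y⟫_ℂ = ⟪x, D y⟫_ℂ)
    (hcom : ∀ x, D' (J x) = J (D x)) (Y : H') :
    ContinuousLinearMap.adjoint J (D' Y) = D (ContinuousLinearMap.adjoint J Y) := by
  apply ext_inner_left ℂ
  intro z
  rw [ContinuousLinearMap.adjoint_inner_right, ← hsa, hcom, ← hsaD,
    ContinuousLinearMap.adjoint_inner_right]

theorem pyth {J : H →L[ℂ] H'} (hJ : ∀ x, ‖J x‖ = ‖x‖)
    (hJJ : ∀ x, ContinuousLinearMap.adjoint J (J x) = x) (Z : H') :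
    ‖Z‖ ^ 2 = ‖ContinuousLinearMap.adjoint J Z‖ ^ 2 +
      ‖Z - J (ContinuousLinearMap.adjoint J Z)‖ ^ 2 := by
  have h0 : ⟪J (ContinuousLinearMap.adjoint J Z), Z - J (ContinuousLinearMap.adjoint J Z)⟫_ℂ = 0 := by
    rw [← ContinuousLinearMap.adjoint_inner_right, map_sub, hJJ, sub_self, inner_zero_right]
  have h1 := norm_add_sq_eq_norm_sq_add_norm_sq_of_inner_eq_zero _ _ h0
  rw [add_sub_cancel, hJ] at h1
  nlinarith [h1]

theorem absG {J : H →L[ℂ] H'} {D : H →L[ℂ] H} {D' : H' →L[ℂ] H'} {V0 : H ≃ₗᵢ[ℂ] H}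
    {W : H' ≃ₗᵢ[ℂ] H'} {s κ g h : ℝ}
    (hJ : ∀ x, ‖J x‖ = ‖x‖) (hJJ : ∀ x, ContinuousLinearMap.adjoint J (J x) = x)
    (hsa : ∀ x y, ⟪D' x, y⟫_ℂ = ⟪x, D' y⟫_ℂ) (hsaD : ∀ x y, ⟪D x, y⟫_ℂ = ⟪x, D y⟫_ℂ)
    (hcom : ∀ x, D' (J x) = J (D x)) (hlo : ∀ F, ‖F‖ ≤ ‖D' F‖) (hup : ∀ F, ‖D' F‖ ≤ s * ‖F‖)
    (hloD : ∀ F, ‖F‖ ≤ ‖D F‖) (hupD : ∀ F, ‖D F‖ ≤ s * ‖F‖)
    (h1 : ∀ y, ContinuousLinearMap.adjoint J (W (J y)) = (κ : ℂ) • V0 y)
    (h2 : ∀ y, ContinuousLinearMap.adjoint J (W.symm (J y)) = (κ : ℂ) • V0.symm y)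
    (h6 : ∀ G, ContinuousLinearMap.adjoint J G = 0 → ‖D' (W G)‖ ≤ g * ‖D' G‖)
    (hg : ∀ x, ‖D (V0 x)‖ ≤ g * ‖D x‖) (hg0 : 0 ≤ g) (hκ0 : 0 ≤ κ) (hκ1 : κ ≤ 1) (hs : 0 ≤ s)
    (hh : 0 ≤ h) (hsh : s ^ 2 * (1 - κ ^ 2) ≤ h ^ 2) (F : H') :
    ‖D' (W F)‖ ≤ (g + h) * ‖D' F‖ := by
  have hκ2 : 0 ≤ 1 - κ ^ 2 := by nlinarith
  set η : ℝ := Real.sqrt (1 - κ ^ 2) with hη
  have hη0 : 0 ≤ η := Real.sqrt_nonneg _
  have hη2 : η ^ 2 = 1 - κ ^ 2 := Real.sq_sqrt hκ2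
  have hsη : s * η ≤ h := by
    apply le_of_sq_le_sq _ hh
    rw [mul_pow, hη2]
    exact hsh
  have hadj := adj_comm hsa hsaD hcom
  have hnc : ∀ (z : H), ‖((κ : ℂ) • z : H)‖ = κ * ‖z‖ := by
    intro z
    rw [norm_smul, Complex.norm_real, Real.norm_eq_abs, abs_of_nonneg hκ0]
  -- the part of `W (J y)` orthogonal to the range
  have hR1 : ∀ y, ‖W (J y) - J (ContinuousLinearMap.adjoint J (W (J y)))‖ = η * ‖y‖ := by
    intro y
    have e := pyth hJ hJJ (W (J y))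
    rw [W.norm_map, hJ, h1, hnc, V0.norm_map] at e
    rw [h1]
    have h3 : ‖W (J y) - J ((κ : ℂ) • V0 y)‖ ^ 2 = (η * ‖y‖) ^ 2 := by
      rw [mul_pow, hη2]
      linarith [e]
    exact (sq_eq_sq₀ (norm_nonneg _) (mul_nonneg hη0 (norm_nonneg _))).1 h3
  have hR2 : ∀ y, ‖W.symm (J y) - J (ContinuousLinearMap.adjoint J (W.symm (J y)))‖ = η * ‖y‖ := by
    intro y
    have e := pyth hJ hJJ (W.symm (J y))
    rw [W.symm.norm_map, hJ, h2, hnc, V0.symm.norm_map] at e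
    rw [h2]
    have h3 : ‖W.symm (J y) - J ((κ : ℂ) • V0.symm y)‖ ^ 2 = (η * ‖y‖) ^ 2 := by
      rw [mul_pow, hη2]
      linarith [e]
    exact (sq_eq_sq₀ (norm_nonneg _) (mul_nonneg hη0 (norm_nonneg _))).1 h3
  obtain ⟨φ, hφ⟩ : ∃ φ, φ = ContinuousLinearMap.adjoint J F := ⟨_, rfl⟩
  obtain ⟨G, hG⟩ : ∃ G, G = F - J φ := ⟨_, rfl⟩
  have hG0 : ContinuousLinearMap.adjoint J G = 0 := by
    rw [hG, map_sub, hJJ, ← hφ, sub_self]
  have hF : F = J φ + G := by rw [hG, add_sub_cancel]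
  set a := ‖D φ‖ with ha
  set c := ‖D' G‖ with hc
  have ha0 : 0 ≤ a := norm_nonneg _
  have hc0 : 0 ≤ c := norm_nonneg _
  have hD'F : ‖D' F‖ ^ 2 = a ^ 2 + c ^ 2 := by
    rw [pyth hJ hJJ (D' F), hadj, ← hφ, ← hcom, ← map_sub, ← hG]
  have hJWG : ‖ContinuousLinearMap.adjoint J (W G)‖ ≤ η * ‖G‖ := by
    set z := ContinuousLinearMap.adjoint J (W G) with hz
    have e1 : ⟪z, z⟫_ℂ = ⟪W.symm (J z) - J (ContinuousLinearMap.adjoint J (W.symm (J z))), G⟫_ℂ := by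
      rw [inner_sub_left]
      have e2 : ⟪J (ContinuousLinearMap.adjoint J (W.symm (J z))), G⟫_ℂ = 0 := by
        rw [← ContinuousLinearMap.adjoint_inner_right, hG0, inner_zero_right]
      rw [e2, sub_zero]
      conv_lhs => rw [hz, ContinuousLinearMap.adjoint_inner_right]
      rw [← hz]
      have e3 := W.symm.inner_map_map (J z) (W G)
      rw [W.symm_apply_apply] at e3
      rw [e3]
    have e2 : ‖z‖ ^ 2 ≤ η * ‖z‖ * ‖G‖ := by
      have e3 : ‖z‖ ^ 2 = ‖⟪z, z⟫_ℂ‖ := by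
        rw [inner_self_eq_norm_sq_to_K]
        simp
      rw [e3, e1, ← hR2 z]
      exact norm_inner_le_norm _ _
    rcases eq_or_lt_of_le (norm_nonneg z) with hz0 | hz0
    · rw [← hz0]
      exact mul_nonneg hη0 (norm_nonneg _)
    · nlinarith
  have hJZ : ‖ContinuousLinearMap.adjoint J (D' (W F))‖ ≤ g * a + h * c := by
    rw [hadj, hF, map_add, map_add, h1, map_add]
    have e1 : ‖D ((κ : ℂ) • V0 φ)‖ ≤ g * a := by
      rw [map_smul, hnc]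
      have := hg φ
      have h3 := norm_nonneg (D (V0 φ))
      nlinarith
    have e2 : ‖D (ContinuousLinearMap.adjoint J (W G))‖ ≤ h * c := by
      have f1 := hupD (ContinuousLinearMap.adjoint J (W G))
      have f2 := hlo G
      have f3 : s * ‖ContinuousLinearMap.adjoint J (W G)‖ ≤ s * (η * ‖G‖) :=
        mul_le_mul_of_nonneg_left hJWG hs
      have f4 : s * (η * ‖G‖) ≤ h * c := by
        rw [← mul_assoc]
        exact mul_le_mul hsη f2 (norm_nonneg _) hh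
      linarith
    exact (norm_add_le _ _).trans (add_le_add e1 e2)
  have hZ2 : ‖D' (W F) - J (ContinuousLinearMap.adjoint J (D' (W F)))‖ ≤ h * a + g * c := by
    have e0 : D' (W F) - J (ContinuousLinearMap.adjoint J (D' (W F))) =
        D' (W (J φ) - J (ContinuousLinearMap.adjoint J (W (J φ)))) +
        (D' (W G) - J (ContinuousLinearMap.adjoint J (D' (W G)))) := by
      have e1 : W F = W (J φ) + W G := by rw [← map_add, ← hF]
      have key : ∀ Y, D' Y - J (ContinuousLinearMap.adjoint J (D' Y)) =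
          D' (Y - J (ContinuousLinearMap.adjoint J Y)) := by
        intro Y
        rw [hadj, map_sub, hcom]
      rw [key, key, ← map_add, e1, map_add, map_add]
      congr 1
      abel
    rw [e0]
    have e1 : ‖D' (W (J φ) - J (ContinuousLinearMap.adjoint J (W (J φ))))‖ ≤ h * a := by
      have f1 := hup (W (J φ) - J (ContinuousLinearMap.adjoint J (W (J φ))))
      rw [hR1] at f1
      have f2 := hloD φ
      have f4 : s * (η * ‖φ‖) ≤ h * a := by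
        rw [← mul_assoc]
        exact mul_le_mul hsη f2 (norm_nonneg _) hh
      linarith
    have e2 : ‖D' (W G) - J (ContinuousLinearMap.adjoint J (D' (W G)))‖ ≤ g * c := by
      have f1 := pyth hJ hJJ (D' (W G))
      have f2 : ‖D' (W G) - J (ContinuousLinearMap.adjoint J (D' (W G)))‖ ≤ ‖D' (W G)‖ := by
        apply le_of_sq_le_sq _ (norm_nonneg _)
        nlinarith [sq_nonneg ‖ContinuousLinearMap.adjoint J (D' (W G))‖]
      exact f2.trans (h6 G hG0)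
    exact (norm_add_le _ _).trans (add_le_add e1 e2)
  have hfin : ‖D' (W F)‖ ^ 2 ≤ ((g + h) * ‖D' F‖) ^ 2 := by
    rw [pyth hJ hJJ (D' (W F)), mul_pow, hD'F]
    have f1 := pow_le_pow_left₀ (norm_nonneg _) hJZ 2
    have f2 := pow_le_pow_left₀ (norm_nonneg _) hZ2 2
    nlinarith [mul_nonneg (mul_nonneg hg0 hh) (sq_nonneg (a - c))]
  exact le_of_sq_le_sq hfin (mul_nonneg (add_nonneg hg0 hh) (norm_nonneg _))

end abs

theorem g3 : S_R1 → S_R2 → S_Z5 → S_J1 → S_J2 → S_J3 → S_J4 → S_G3 := by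
  intro hR1 _ hZ5 hJ1 hJ2 hJ3 hJ4 k b m _ _ hk hb H _ _ _ U D hL n hn g hg hgD F
  obtain ⟨j1, j2, -, -, -⟩ := hJ1 k b m hk hb H U
  obtain ⟨-, c2, c3⟩ := hJ2 k b m hk hb H U n hn.le
  obtain ⟨-, -, d3, d4⟩ := hJ3 k b m hk hb H U D hL
  obtain ⟨k1, k2, -, -, -, k6⟩ := hJ4 k b m hk hb H U D hL
  obtain ⟨-, -, z3, z4⟩ := hZ5 k b m hk hb
  have hm0 : (0 : ℝ) < m := by exact_mod_cast (by omega : 0 < m)
  have hx0 : 0 ≤ (n : ℝ) / m := by positivity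
  have hx1 : (n : ℝ) / m ≤ 1 := by
    rw [div_le_one hm0]
    exact_mod_cast hn.le
  obtain ⟨r1, r2, -, r4, -⟩ := (hR1 k hk).1 ((n : ℝ) / m) hx0 hx1
  have hg0 : 0 ≤ g := (Real.sqrt_nonneg 2).trans hg
  have h6 : ∀ G, ContinuousLinearMap.adjoint (Jop k b m U) G = 0 →
      ‖Dop k b m U D ((Ush b m ^ n) G)‖ ≤ g * ‖Dop k b m U D G‖ := by
    intro G hG
    have e1 := k6 n G hG
    have e2 := z4 n hn.le
    have e3 : g ^ 2 ≥ 2 := by
      have := pow_le_pow_left₀ (Real.sqrt_nonneg 2) hg 2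
      rw [Real.sq_sqrt (by norm_num)] at this
      exact this
    apply le_of_sq_le_sq _ (mul_nonneg hg0 (norm_nonneg _))
    rw [mul_pow]
    generalize ‖Dop k b m U D G‖ = u at *
    generalize ‖Dop k b m U D ((Ush b m ^ n) G)‖ = v at *
    have e4 := sq_nonneg u
    nlinarith
  have hk0 : 0 ≤ k := by linarith
  have hh : 0 ≤ k * Real.sqrt (2 * ((n : ℝ) / m)) := by positivity
  have hsh : (Real.sqrt k) ^ 2 * (1 - (kap k ((n : ℝ) / m)) ^ 2) ≤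
      (k * Real.sqrt (2 * ((n : ℝ) / m))) ^ 2 := by
    rw [Real.sq_sqrt hk0, mul_pow, Real.sq_sqrt (by positivity)]
    generalize kap k ((n : ℝ) / m) = κ at *
    generalize (n : ℝ) / m = x at *
    nlinarith [mul_nonneg hk0 (by linarith : 0 ≤ 1 - κ)]
  exact absG (J := Jop k b m U) (D := D) (D' := Dop k b m U D) (V0 := U ^ n) (W := Ush b m ^ n)
    (s := Real.sqrt k) (κ := kap k ((n : ℝ) / m)) (g := g) (h := k * Real.sqrt (2 * ((n : ℝ) / m)))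
    j1 j2 d3 hL.sa d4 k1 k2 hL.lo hL.up c2 c3 h6 hgD hg0 r1.le r2 (Real.sqrt_nonneg _) hh hsh F

end Pool.Agent.W347.PB
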